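import Pool.Agent.K6.H12.HA.Stm

/-! Piece CYC (helper29, for helper12): growth of the orbits of a linear map. -/

set_option autoImplicit false

open Filter Topology

namespace Pool.Agent.K6.H12.HA

namespace CYC

/-- an operator with a cyclic vector: `‖P‖ ≤ K ‖P v‖` for the polynomials `P` in `T` -/
lemma cyclic_bound {Z : Type*} [NormedAddCommGroup Z] [NormedSpace ℂ Z] [FiniteDimensional ℂ Z]
    (T : Z →L[ℂ] Z) (v : Z) (hv : Submodule.span ℂ (Set.range fun i : ℕ => (T ^ i) v) = ⊤) :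
    ∃ K : ℝ, 0 < K ∧ ∀ n : ℕ, ‖T ^ n‖ ≤ K * ‖(T ^ n) v‖ := by
  let A : Submodule ℂ (Z →L[ℂ] Z) := Subalgebra.toSubmodule (Algebra.adjoin ℂ {T})
  let ev : A →ₗ[ℂ] Z :=
    { toFun := fun P => (P : Z →L[ℂ] Z) v
      map_add' := fun P Q => rfl
      map_smul' := fun c P => rfl }
  have hker : LinearMap.ker ev = ⊥ := by
    rw [LinearMap.ker_eq_bot']
    rintro ⟨P, hP⟩ h0
    have h0' : P v = 0 := h0
    have hcomm : Commute T P := Algebra.commute_of_mem_adjoin_singleton_of_commute hP rfl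
    have h1 : ∀ i : ℕ, P ((T ^ i) v) = 0 := by
      intro i
      have h2 : (P * T ^ i) v = (T ^ i * P) v := by
        rw [((hcomm.pow_left i).eq)]
      change (P * T ^ i) v = 0
      rw [h2]
      change (T ^ i) (P v) = 0
      rw [h0', map_zero]
    have h3 : ∀ z : Z, P z = 0 := by
      intro z
      have hz : z ∈ Submodule.span ℂ (Set.range fun i : ℕ => (T ^ i) v) := by
        rw [hv]
        exact Submodule.mem_top
      induction hz using Submodule.span_induction with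
      | mem x hx =>
        obtain ⟨i, rfl⟩ := hx
        exact h1 i
      | zero => exact map_zero P
      | add x y _ _ hx hy => rw [map_add, hx, hy, add_zero]
      | smul c x _ hx => rw [map_smul, hx, smul_zero]
    apply Subtype.ext
    ext z
    exact h3 z
  obtain ⟨K, hK, hanti⟩ := LinearMap.exists_antilipschitzWith (𝕜 := ℂ) (E := A) (F := Z) ev hker
  refine ⟨K, hK, fun n => ?_⟩
  have hmem : T ^ n ∈ A :=
    Subalgebra.pow_mem _ (Algebra.subset_adjoin (Set.mem_singleton T)) n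
  have h4 := hanti.le_mul_norm_sub 0 ⟨T ^ n, hmem⟩
  rw [neg_zero, zero_add, map_zero, neg_zero, zero_add] at h4
  exact h4

/-- `c ^ (1 / n) → 1` -/
lemma root_one {c : ℝ} (hc : 0 < c) :
    Tendsto (fun n : ℕ => c ^ (1 / (n : ℝ))) atTop (𝓝 1) := by
  have h1 : ContinuousAt (fun x : ℝ => c ^ x) 0 := Real.continuousAt_const_rpow hc.ne'
  have h2 : Tendsto (fun n : ℕ => 1 / (n : ℝ)) atTop (𝓝 0) := tendsto_one_div_atTop_nhds_zero_nat
  have h3 := h1.tendsto.comp h2
  rw [Real.rpow_zero] at h3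
  exact h3

/-- the growth of a cyclic vector -/
lemma cyclic_growth {Z : Type*} [NormedAddCommGroup Z] [NormedSpace ℂ Z] [FiniteDimensional ℂ Z]
    (T : Z →L[ℂ] Z) (v : Z) (hv : Submodule.span ℂ (Set.range fun i : ℕ => (T ^ i) v) = ⊤)
    (hv0 : v ≠ 0) :
    ∃ μ : ℂ, (∃ z : Z, z ≠ 0 ∧ T z = μ • z) ∧
      Tendsto (fun n : ℕ => ‖(T ^ n) v‖ ^ (1 / (n : ℝ))) atTop (𝓝 ‖μ‖) := by
  have : CompleteSpace Z := FiniteDimensional.complete ℂ Z
  have : Nontrivial Z := ⟨v, 0, hv0⟩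
  obtain ⟨μ, hμ, hμr⟩ := spectrum.exists_nnnorm_eq_spectralRadius T
  refine ⟨μ, ?_, ?_⟩
  · rw [spectrum.mem_iff, ContinuousLinearMap.isUnit_iff_bijective] at hμ
    have h1 : ¬ Function.Injective ((algebraMap ℂ (Z →L[ℂ] Z) μ - T : Z →L[ℂ] Z) : Z →ₗ[ℂ] Z) := by
      intro hinj
      exact hμ ⟨hinj, LinearMap.injective_iff_surjective.1 hinj⟩
    rw [injective_iff_map_eq_zero] at h1
    push Not at h1
    obtain ⟨z, hz, hz0⟩ := h1
    refine ⟨z, hz0, ?_⟩
    have h2 : μ • z - T z = 0 := by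
      have h3 : ((algebraMap ℂ (Z →L[ℂ] Z) μ - T : Z →L[ℂ] Z) : Z →ₗ[ℂ] Z) z = μ • z - T z := by
        rw [Algebra.algebraMap_eq_smul_one]
        rfl
      rw [← h3]
      exact hz
    exact (sub_eq_zero.1 h2).symm
  · have h1 := spectrum.pow_norm_pow_one_div_tendsto_nhds_spectralRadius T
    rw [← hμr] at h1
    have h2 : Tendsto (fun n : ℕ => ‖T ^ n‖ ^ (1 / (n : ℝ))) atTop (𝓝 ‖μ‖) := by
      have h3 := (ENNReal.tendsto_toReal ENNReal.coe_ne_top).comp h1
      have h4 : (ENNReal.toReal ∘ fun n : ℕ => ENNReal.ofReal (‖T ^ n‖ ^ (1 / (n : ℝ)))) =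
          fun n : ℕ => ‖T ^ n‖ ^ (1 / (n : ℝ)) := by
        funext n
        exact ENNReal.toReal_ofReal (by positivity)
      rw [h4] at h3
      exact h3
    obtain ⟨K, hK, hKn⟩ := cyclic_bound T v hv
    have hv1 : 0 < ‖v‖ := norm_pos_iff.2 hv0
    have h5 := h2.mul (root_one hv1)
    have h6 := h2.div (root_one hK) one_ne_zero
    rw [mul_one] at h5
    rw [div_one] at h6
    refine tendsto_of_tendsto_of_tendsto_of_le_of_le h6 h5 (fun n => ?_) (fun n => ?_)
    · rw [Pi.div_apply, div_le_iff₀ (Real.rpow_pos_of_pos hK _), mul_comm,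
        ← Real.mul_rpow hK.le (norm_nonneg _)]
      exact Real.rpow_le_rpow (norm_nonneg _) (hKn n) (by positivity)
    · rw [← Real.mul_rpow (norm_nonneg _) (norm_nonneg _)]
      exact Real.rpow_le_rpow (norm_nonneg _) ((T ^ n).le_opNorm v) (by positivity)

end CYC

theorem t_CYC : S_CYC := by
  intro E _ _ _ B v hv
  let Z : Submodule ℂ E := Submodule.span ℂ (Set.range fun i : ℕ => (B ^ i) v)
  have hZ : ∀ x ∈ Z, B x ∈ Z := by
    intro x hx
    have h1 : Z ≤ Z.comap B := by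
      rw [Submodule.span_le]
      rintro _ ⟨i, rfl⟩
      change B ((B ^ i) v) ∈ Z
      have h2 : B ((B ^ i) v) = (B ^ (i + 1)) v := by
        rw [pow_succ']
        rfl
      rw [h2]
      exact Submodule.subset_span ⟨i + 1, rfl⟩
    exact h1 hx
  let T : Z →L[ℂ] Z := LinearMap.toContinuousLinearMap (B.restrict hZ)
  have hT : ∀ z : Z, ((T z : Z) : E) = B z := fun z => rfl
  have hTn : ∀ (i : ℕ) (z : Z), (((T ^ i) z : Z) : E) = (B ^ i) z := by
    intro i
    induction i with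
    | zero => intro z; rfl
    | succ i ih =>
      intro z
      rw [pow_succ, pow_succ]
      change (((T ^ i) (T z) : Z) : E) = (B ^ i) (B z)
      rw [ih, hT]
  have hvZ : v ∈ Z := Submodule.subset_span ⟨0, rfl⟩
  have hspan : Submodule.span ℂ (Set.range fun i : ℕ => (T ^ i) (⟨v, hvZ⟩ : Z)) = ⊤ := by
    rw [eq_top_iff]
    rintro ⟨x, hx⟩ -
    induction hx using Submodule.span_induction with
    | mem x hx =>
      obtain ⟨i, rfl⟩ := hx
      exact Submodule.subset_span ⟨i, Subtype.ext (hTn i _)⟩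
    | zero => exact Submodule.zero_mem _
    | add x y hx hy h1 h2 => exact Submodule.add_mem _ h1 h2
    | smul c x hx h1 => exact Submodule.smul_mem _ c h1
  have hv0 : (⟨v, hvZ⟩ : Z) ≠ 0 := by
    intro h
    exact hv 0 (congrArg Subtype.val h)
  obtain ⟨μ, ⟨z, hz0, hz⟩, hlim⟩ := CYC.cyclic_growth T ⟨v, hvZ⟩ hspan hv0
  refine ⟨μ, ?_, ?_⟩
  · apply Module.End.hasEigenvalue_of_hasEigenvector (x := (z : E))
    refine ⟨Module.End.mem_eigenspace_iff.2 ?_, fun h => hz0 (Subtype.ext h)⟩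
    have h1 := congrArg Subtype.val hz
    exact h1
  · have h1 : (fun n : ℕ => ‖(B ^ n) v‖ ^ (1 / (n : ℝ))) =
        fun n : ℕ => ‖(T ^ n) (⟨v, hvZ⟩ : Z)‖ ^ (1 / (n : ℝ)) := by
      funext n
      have h2 : ‖(T ^ n) (⟨v, hvZ⟩ : Z)‖ = ‖(B ^ n) v‖ := by
        rw [← hTn n ⟨v, hvZ⟩]
        rfl
      rw [h2]
    rw [h1]
    exact hlim

end Pool.Agent.K6.H12.HA
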