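import Mathlib

/-!
The eigenvalues of the tensor powers of a matrix.
-/

set_option autoImplicit false

namespace Pool.Agent.K6.H12.HA

/-- The `m`-th tensor power of the matrix `a`. -/
def tp {R : Type} [CommRing R] {r : ℕ} (m : ℕ) (a : Matrix (Fin r) (Fin r) R) :
    Matrix (Fin m → Fin r) (Fin m → Fin r) R := fun I J => ∏ s, a (I s) (J s)

/-- RAT: an eigenvalue of the `m`-th tensor power of `a` is a product of `m` eigenvalues of `a`. -/
def S_RAT : Prop :=
  ∀ (r m : ℕ) (a : Matrix (Fin r) (Fin r) ℂ) (μ : ℂ),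
    Module.End.HasEigenvalue (Matrix.toLin' (tp m a)) μ →
    ∃ ν : Fin m → ℂ, (∀ s, Module.End.HasEigenvalue (Matrix.toLin' a) (ν s)) ∧ μ = ∏ s, ν s

end Pool.Agent.K6.H12.HA
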