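import Pool.Agent.K6.H12.HA.PER
import Pool.Agent.K6.H12.HA.Stm2

/-!
The growth of the mixed degrees and heights of the cycles `f_*^n V`.
-/

set_option autoImplicit false

open Filter Topology

namespace Pool.Agent.K6.H12.HA

lemma norm_le_of_abs {ι : Type} [Fintype ι] {x : ι → ℝ} {M : ℝ} (hM : 0 ≤ M)
    (h : ∀ I, |x I| ≤ M) : ‖(fun I => (x I : ℂ))‖ ≤ M := by
  rw [pi_norm_le_iff_of_nonneg hM]
  intro I
  rw [Complex.norm_real]
  exact h I

lemma sum_abs_le {ι : Type} [Fintype ι] (x : ι → ℝ) :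
    ∑ I, |x I| ≤ Fintype.card ι * ‖(fun I => (x I : ℂ))‖ := by
  rw [← nsmul_eq_mul, ← Finset.card_univ]
  refine Finset.sum_le_card_nsmul _ _ _ fun I _ => ?_
  have h := norm_le_pi_norm (fun I => (x I : ℂ)) I
  rwa [Complex.norm_real] at h

lemma toLin_tp {r m : ℕ} (a : Matrix (Fin r) (Fin r) ℝ) (x : (Fin m → Fin r) → ℝ)
    (I : Fin m → Fin r) :
    Matrix.toLin' (tp m (a.map Complex.ofRealHom)) (fun J => (x J : ℂ)) I =
      ((∑ J, (∏ s, a (I s) (J s)) * x J : ℝ) : ℂ) := by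
  rw [Matrix.toLin'_apply, Matrix.mulVec, dotProduct]
  push_cast
  refine Finset.sum_congr rfl fun J _ => ?_
  simp [tp]

/-- The growth of the degrees: exact tensor recurrence. -/
theorem deg_growth (hCYC : S_CYC) {r k : ℕ} (a : Matrix (Fin r) (Fin r) ℝ)
    (d : ℕ → (Fin k → Fin r) → ℝ) (w : ℕ → ℝ) (C : ℝ) (hw : ∀ n, 1 ≤ w n)
    (h1 : ∀ n I, |d n I| ≤ C * w n) (h2 : ∀ n, w n ≤ C * ∑ I, |d n I|)
    (h3 : ∀ n I, d (n + 1) I = ∑ J, (∏ s, a (I s) (J s)) * d n J) :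
    ∃ μ : ℂ, Module.End.HasEigenvalue (Matrix.toLin' (tp k (a.map Complex.ofRealHom))) μ ∧
      1 ≤ ‖μ‖ ∧ Tendsto (fun n : ℕ => w n ^ (1 / (n : ℝ))) atTop (𝓝 ‖μ‖) := by
  obtain ⟨B, hB⟩ : ∃ B, B = Matrix.toLin' (tp k (a.map Complex.ofRealHom)) := ⟨_, rfl⟩
  obtain ⟨v, hv⟩ : ∃ v : ℕ → (Fin k → Fin r) → ℂ, v = fun n I => (d n I : ℂ) := ⟨_, rfl⟩
  have hstep : ∀ n, v (n + 1) = B (v n) := by
    intro n
    funext I
    rw [hv, hB, toLin_tp, ← h3]
  have hpow : ∀ n, v n = (B ^ n) (v 0) := by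
    intro n
    induction n with
    | zero => simp
    | succ n ih => rw [hstep, ih, pow_succ', Module.End.mul_apply]
  have hCw : ∀ n, w n ≤ |C| * (Fintype.card (Fin k → Fin r) * ‖v n‖) := by
    intro n
    refine (h2 n).trans ?_
    have h4 : 0 ≤ ∑ I, |d n I| := Finset.sum_nonneg fun I _ => abs_nonneg _
    refine (mul_le_mul_of_nonneg_right (le_abs_self C) h4).trans ?_
    refine mul_le_mul_of_nonneg_left ?_ (abs_nonneg _)
    rw [hv]
    exact sum_abs_le (d n)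
  have hne : ∀ n, (B ^ n) (v 0) ≠ 0 := by
    intro n h
    have h5 := hCw n
    rw [hpow n, h, norm_zero, mul_zero, mul_zero] at h5
    linarith [hw n]
  obtain ⟨μ, hμ, hlim⟩ := hCYC _ B (v 0) hne
  have hvpos : 0 < ‖v 0‖ := norm_pos_iff.2 (hne 0)
  have hD : 0 < |C| * (Fintype.card (Fin k → Fin r) : ℝ) := by
    have h5 := hCw 0
    rw [← mul_assoc] at h5
    by_contra h6
    have h7 : |C| * (Fintype.card (Fin k → Fin r) : ℝ) * ‖v 0‖ ≤ 0 :=
      mul_nonpos_of_nonpos_of_nonneg (not_lt.1 h6) hvpos.le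
    linarith [hw 0]
  have hC0 : 0 < |C| := by
    by_contra h6
    have h7 : |C| = 0 := le_antisymm (not_lt.1 h6) (abs_nonneg _)
    rw [h7, zero_mul] at hD
    exact lt_irrefl _ hD
  have hlim' : Tendsto (fun n : ℕ => w n ^ (1 / (n : ℝ))) atTop (𝓝 ‖μ‖) := by
    refine rt_comp (c₁ := |C|⁻¹) (c₂ := |C| * (Fintype.card (Fin k → Fin r) : ℝ))
      (inv_pos.2 hC0) hD (b := fun n => ‖(B ^ n) (v 0)‖) (fun n => norm_nonneg _) ?_ ?_ hlim
    · refine Eventually.of_forall fun n => ?_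
      rw [inv_mul_le_iff₀ hC0, ← hpow, hv]
      refine norm_le_of_abs (mul_nonneg hC0.le (by linarith [hw n])) fun I => (h1 n I).trans ?_
      exact mul_le_mul_of_nonneg_right (le_abs_self C) (by linarith [hw n])
    · refine Eventually.of_forall fun n => ?_
      rw [← hpow, mul_assoc]
      exact hCw n
  refine ⟨μ, by rw [← hB]; exact hμ, ?_, hlim'⟩
  refine ge_of_tendsto' hlim' fun n => ?_
  exact Real.one_le_rpow (hw n) (by positivity)

/-- The growth of the heights. -/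
theorem ht_growth (hPER : S_PER) {r k : ℕ} (a : Matrix (Fin r) (Fin r) ℝ)
    (h : ℕ → (Fin (k + 1) → Fin r) → ℝ) (w t : ℕ → ℝ) (C β : ℝ) (hC : 0 < C) (hβ : 1 ≤ β)
    (hw : ∀ n, 1 ≤ w n) (hlim : Tendsto (fun n : ℕ => w n ^ (1 / (n : ℝ))) atTop (𝓝 β))
    (h1 : ∀ n I, |h n I| ≤ C * t n) (h2 : ∀ n, t n ≤ C * ∑ I, |h n I|)
    (h3 : ∀ n, w n ≤ C * t n)
    (h4 : ∀ n I, |h (n + 1) I - ∑ J, (∏ s, a (I s) (J s)) * h n J| ≤ C * w n) :
    ∃ α : ℝ, β ≤ α ∧ Tendsto (fun n : ℕ => t n ^ (1 / (n : ℝ))) atTop (𝓝 α) ∧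
      (α = β ∨ ∃ μ : ℂ, Module.End.HasEigenvalue
        (Matrix.toLin' (tp (k + 1) (a.map Complex.ofRealHom))) μ ∧ α = ‖μ‖) := by
  obtain ⟨B, hB⟩ : ∃ B, B = Matrix.toLin' (tp (k + 1) (a.map Complex.ofRealHom)) := ⟨_, rfl⟩
  obtain ⟨v, hv⟩ : ∃ v : ℕ → (Fin (k + 1) → Fin r) → ℂ, v = fun n I => (h n I : ℂ) := ⟨_, rfl⟩
  obtain ⟨N, hN⟩ : ∃ N : ℝ, N = Fintype.card (Fin (k + 1) → Fin r) := ⟨_, rfl⟩
  have ht : ∀ n, 0 < t n := fun n => by
    have h5 : 0 < C * t n := lt_of_lt_of_le (by linarith [hw n]) (h3 n)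
    exact (pos_iff_pos_of_mul_pos h5).1 hC
  have hvt : ∀ n, ‖v n‖ ≤ C * t n := fun n => by
    rw [hv]
    exact norm_le_of_abs (mul_nonneg hC.le (ht n).le) (h1 n)
  have htv : ∀ n, t n ≤ C * N * ‖v n‖ := by
    intro n
    refine (h2 n).trans ?_
    rw [mul_assoc]
    refine mul_le_mul_of_nonneg_left ?_ hC.le
    rw [hv, hN]
    exact sum_abs_le (h n)
  have hN0 : 0 ≤ N := by rw [hN]; positivity
  have hCN : 0 < C * N := by
    by_contra h5
    have h6 := htv 0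
    have h7 : C * N * ‖v 0‖ ≤ 0 := mul_nonpos_of_nonpos_of_nonneg (not_lt.1 h5) (norm_nonneg _)
    linarith [ht 0]
  obtain ⟨α, hα, hα'⟩ := hPER _ B v w (C + C * (C * N)) β (by linarith)
    (fun n => by linarith [hw n]) (fun n => by
      have h5 : v (n + 1) - B (v n) = fun I =>
          ((h (n + 1) I - ∑ J, (∏ s, a (I s) (J s)) * h n J : ℝ) : ℂ) := by
        funext I
        rw [Pi.sub_apply, Complex.ofReal_sub, hv, hB, toLin_tp]
      rw [h5]
      refine (norm_le_of_abs (mul_nonneg hC.le (by linarith [hw n])) (h4 n)).trans ?_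
      exact mul_le_mul_of_nonneg_right (le_add_of_nonneg_right (by positivity))
        (by linarith [hw n]))
    (fun n => by
      refine (h3 n).trans ((mul_le_mul_of_nonneg_left (htv n) hC.le).trans ?_)
      have h5 : 0 ≤ C * ‖v n‖ := mul_nonneg hC.le (norm_nonneg _)
      calc C * (C * N * ‖v n‖) ≤ C * ‖v n‖ + C * (C * N * ‖v n‖) := le_add_of_nonneg_left h5
        _ = (C + C * (C * N)) * ‖v n‖ := by ring) hlim
  have hlim' : Tendsto (fun n : ℕ => t n ^ (1 / (n : ℝ))) atTop (𝓝 α) := by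
    refine rt_comp (c₁ := C⁻¹) (c₂ := C * N) (inv_pos.2 hC) hCN (b := fun n => ‖v n‖)
      (fun n => norm_nonneg _) ?_ ?_ hα
    · refine Eventually.of_forall fun n => ?_
      rw [inv_mul_le_iff₀ hC]
      exact hvt n
    · exact Eventually.of_forall htv
  refine ⟨α, ?_, hlim', ?_⟩
  · refine le_of_tendsto_of_tendsto' hlim (rt_mul hC (fun n => (ht n).le) hlim') fun n => ?_
    exact Real.rpow_le_rpow (by linarith [hw n]) (h3 n) (by positivity)
  · rcases hα' with h5 | ⟨μ, hμ, h5⟩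
    · exact Or.inl h5
    · exact Or.inr ⟨μ, by rw [← hB]; exact hμ, h5⟩

end Pool.Agent.K6.H12.HA
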