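import Pool.Agent.K6.H12.HA.Stm

/-!
Growth of perturbed linear orbits.
-/

set_option autoImplicit false

open Filter Topology

namespace Pool.Agent.K6.H12.HA

lemma rt_const {c : ℝ} (hc : 0 < c) :
    Tendsto (fun n : ℕ => c ^ (1 / (n : ℝ))) atTop (𝓝 1) := by
  have h := (tendsto_const_nhds (x := c)).rpow
    (tendsto_one_div_atTop_nhds_zero_nat (𝕜 := ℝ)) (Or.inl hc.ne')
  simpa using h

lemma rt_mul {c β : ℝ} (hc : 0 < c) {b : ℕ → ℝ} (hb : ∀ n, 0 ≤ b n)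
    (h : Tendsto (fun n : ℕ => b n ^ (1 / (n : ℝ))) atTop (𝓝 β)) :
    Tendsto (fun n : ℕ => (c * b n) ^ (1 / (n : ℝ))) atTop (𝓝 β) := by
  have h1 := (rt_const hc).mul h
  rw [one_mul] at h1
  refine h1.congr fun n => ?_
  rw [Real.mul_rpow hc.le (hb n)]

/-- Comparable sequences have the same growth. -/
lemma rt_comp {c₁ c₂ β : ℝ} (h1 : 0 < c₁) (h2 : 0 < c₂) {a b : ℕ → ℝ} (hb : ∀ n, 0 ≤ b n)
    (hl : ∀ᶠ n in atTop, c₁ * b n ≤ a n) (hu : ∀ᶠ n in atTop, a n ≤ c₂ * b n)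
    (h : Tendsto (fun n : ℕ => b n ^ (1 / (n : ℝ))) atTop (𝓝 β)) :
    Tendsto (fun n : ℕ => a n ^ (1 / (n : ℝ))) atTop (𝓝 β) := by
  refine tendsto_of_tendsto_of_tendsto_of_le_of_le' (rt_mul h1 hb h) (rt_mul h2 hb h) ?_ ?_
  · filter_upwards [hl] with n hn
    exact Real.rpow_le_rpow (mul_nonneg h1.le (hb n)) hn (by positivity)
  · filter_upwards [hl, hu] with n hn hn'
    exact Real.rpow_le_rpow ((mul_nonneg h1.le (hb n)).trans hn) hn' (by positivity)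

lemma pow_rt {x : ℝ} (hx : 0 ≤ x) {n : ℕ} (hn : n ≠ 0) : (x ^ n) ^ (1 / (n : ℝ)) = x := by
  rw [one_div]
  exact Real.pow_rpow_inv_natCast hx hn

/-- An exponential bound from the growth rate. -/
lemma rt_up {w : ℕ → ℝ} {ρ ρ₂ : ℝ} (hw : ∀ n, 0 ≤ w n) (hρ : 0 < ρ) (h2 : ρ < ρ₂)
    (h : Tendsto (fun n : ℕ => w n ^ (1 / (n : ℝ))) atTop (𝓝 ρ)) :
    ∃ C : ℝ, 0 < C ∧ ∀ n, w n ≤ C * ρ₂ ^ n := by
  have hρ2 : 0 < ρ₂ := hρ.trans h2
  have h1 : w =O[atTop] fun n : ℕ => ρ₂ ^ n := by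
    refine Asymptotics.IsBigO.of_bound 1 ?_
    filter_upwards [(tendsto_order.1 h).2 ρ₂ h2, eventually_ne_atTop 0] with n hn hn0
    rw [Real.norm_of_nonneg (hw n), Real.norm_of_nonneg (by positivity), one_mul]
    have h3 : (w n ^ (1 / (n : ℝ))) ^ n ≤ ρ₂ ^ n :=
      pow_le_pow_left₀ (Real.rpow_nonneg (hw n) _) hn.le n
    rwa [one_div, Real.rpow_inv_natCast_pow (hw n) hn0] at h3
  obtain ⟨C, hC, h3⟩ := Asymptotics.bound_of_isBigO_nat_atTop h1
  refine ⟨C, hC, fun n => ?_⟩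
  have h4 := h3 (x := n) (by positivity)
  rwa [Real.norm_of_nonneg (hw n), Real.norm_of_nonneg (by positivity)] at h4

theorem t_PER (hCYC : S_CYC) (hSPL : S_SPL) : S_PER := by
  intro E _ _ _ B v w C ρ hρ hw he hwv hlim
  have hCv : ∀ n, 0 < C * ‖v n‖ := fun n => (hw n).trans_le (hwv n)
  have hC : 0 < C := by
    by_contra h
    exact absurd (hCv 0) (not_lt.2 (mul_nonpos_of_nonpos_of_nonneg (not_lt.1 h) (norm_nonneg _)))
  obtain ⟨π, S, τ₁, hτ, hππ, hBπ, hSB, hBS, hπS, hSπ, ⟨K, hK⟩, hW⟩ := hSPL E B ρ hρ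
  have hτ₁ : 0 < τ₁ := hρ.trans hτ
  have hK0 : ∀ (n : ℕ) (x : E), ‖(S ^ n) x‖ ≤ |K| * (τ₁⁻¹) ^ n * ‖x‖ := fun n x =>
    (hK n x).trans (by
      gcongr
      exact le_abs_self K)
  obtain ⟨e, hedef⟩ : ∃ e : ℕ → E, e = fun n => v (n + 1) - B (v n) := ⟨_, rfl⟩
  have hv : ∀ n, v (n + 1) = B (v n) + e n := fun n => by rw [hedef]; simp
  have hen : ∀ n, ‖e n‖ ≤ C * w n := fun n => by rw [hedef]; exact he n
  -- identities
  have hπSn : ∀ (j : ℕ) (x : E), π ((S ^ j) (π x)) = (S ^ j) (π x) := by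
    intro j x
    rcases j with _ | j
    · simpa using hππ x
    · rw [pow_succ', Module.End.mul_apply]
      exact hπS _
  have hBnSn : ∀ (n j : ℕ) (x : E), (B ^ n) ((S ^ (n + j)) (π x)) = (S ^ j) (π x) := by
    intro n
    induction n with
    | zero => intro j x; simp
    | succ n ih =>
      intro j x
      have h1 : (S ^ (n + 1 + j)) (π x) = S ((S ^ (n + j)) (π x)) := by
        rw [show n + 1 + j = (n + j) + 1 by ring, pow_succ', Module.End.mul_apply]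
      rw [h1, pow_succ, Module.End.mul_apply, hBS, hπSn, ih]
  have hSnπ : ∀ (j : ℕ) (x : E), (S ^ (j + 1)) (π x) = (S ^ (j + 1)) x := by
    intro j x
    rw [pow_succ, Module.End.mul_apply, Module.End.mul_apply, hSπ]
  -- the limit
  obtain ⟨u, hu⟩ : ∃ u : ℕ → E, u = fun n => (S ^ n) (π (v n)) := ⟨_, rfl⟩
  have hstep : ∀ n, u (n + 1) = u n + (S ^ (n + 1)) (e n) := by
    intro n
    rw [hu]
    change (S ^ (n + 1)) (π (v (n + 1))) = (S ^ n) (π (v n)) + _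
    rw [hv, map_add, map_add, hSnπ n (e n)]
    congr 1
    rw [← hBπ, pow_succ, Module.End.mul_apply, hSB, hππ]
  have hCu : ∀ ρ₂ : ℝ, ρ < ρ₂ → ∃ C₂ : ℝ, 0 < C₂ ∧ ∀ n, ‖e n‖ ≤ C₂ * ρ₂ ^ n := by
    intro ρ₂ h2
    obtain ⟨C₂, hC₂, h3⟩ := rt_up (fun n => (hw n).le) hρ h2 hlim
    refine ⟨C * C₂, by positivity, fun n => (hen n).trans ?_⟩
    rw [mul_assoc]
    exact mul_le_mul_of_nonneg_left (h3 n) hC.le
  have hlimu : ∃ û : E, Tendsto u atTop (𝓝 û) := by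
    obtain ⟨ρ₂, h2, h2'⟩ := exists_between hτ
    obtain ⟨C₂, hC₂, h3⟩ := hCu ρ₂ h2
    have hρ2 : 0 < ρ₂ := hρ.trans h2
    have hr : ρ₂ / τ₁ < 1 := (div_lt_one hτ₁).2 h2'
    have hc : CauchySeq u := by
      refine cauchySeq_of_le_geometric (ρ₂ / τ₁) (|K| * C₂ / τ₁) hr fun n => ?_
      rw [hstep, dist_self_add_right]
      refine (hK0 (n + 1) (e n)).trans ?_
      calc |K| * (τ₁⁻¹) ^ (n + 1) * ‖e n‖ ≤ |K| * (τ₁⁻¹) ^ (n + 1) * (C₂ * ρ₂ ^ n) := by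
            gcongr
            exact h3 n
        _ = |K| * C₂ / τ₁ * (ρ₂ / τ₁) ^ n := by
            rw [pow_succ, div_pow, inv_pow]
            field_simp
    haveI : CompleteSpace E := FiniteDimensional.complete ℂ E
    exact cauchySeq_tendsto_of_complete hc
  obtain ⟨û, hû⟩ := hlimu
  have hcB : ∀ n : ℕ, Continuous (B ^ n) := fun n => LinearMap.continuous_of_finiteDimensional _
  have hcπ : Continuous π := LinearMap.continuous_of_finiteDimensional _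
  have hπû : π û = û := by
    refine tendsto_nhds_unique ((hcπ.tendsto û).comp hû) (hû.congr fun n => ?_)
    rw [hu]
    exact (hπSn n (v n)).symm
  have hmain : ∀ ρ₂ : ℝ, ρ < ρ₂ → ρ₂ < τ₁ → ∃ K₁ : ℝ, ∀ n, ‖π (v n) - (B ^ n) û‖ ≤ K₁ * ρ₂ ^ n := by
    intro ρ₂ h2 h2'
    obtain ⟨C₂, hC₂, h3⟩ := hCu ρ₂ h2
    have hρ2 : 0 < ρ₂ := hρ.trans h2
    have hr : ρ₂ / τ₁ < 1 := (div_lt_one hτ₁).2 h2'
    refine ⟨|K| * C₂ / τ₁ / (1 - ρ₂ / τ₁), fun n => ?_⟩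
    have hz : Tendsto (fun j => (B ^ n) (u (n + j))) atTop (𝓝 ((B ^ n) û)) := by
      refine ((hcB n).tendsto û).comp (hû.comp ?_)
      exact tendsto_add_atTop_nat n |>.congr fun j => add_comm _ _
    have hd : ∀ j, dist ((B ^ n) (u (n + j))) ((B ^ n) (u (n + (j + 1)))) ≤
        (|K| * C₂ * ρ₂ ^ n / τ₁) * (ρ₂ / τ₁) ^ j := by
      intro j
      have h4 : (B ^ n) (u (n + (j + 1))) = (B ^ n) (u (n + j)) + (S ^ (j + 1)) (e (n + j)) := by
        rw [show n + (j + 1) = (n + j) + 1 by ring, hstep, map_add]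
        congr 1
        rw [← hSnπ, ← hSnπ j, show n + j + 1 = n + (j + 1) by ring, hBnSn]
      rw [h4, dist_self_add_right]
      refine (hK0 (j + 1) (e (n + j))).trans ?_
      calc |K| * (τ₁⁻¹) ^ (j + 1) * ‖e (n + j)‖
          ≤ |K| * (τ₁⁻¹) ^ (j + 1) * (C₂ * ρ₂ ^ (n + j)) := by
            gcongr
            exact h3 _
        _ = (|K| * C₂ * ρ₂ ^ n / τ₁) * (ρ₂ / τ₁) ^ j := by
            rw [pow_succ, div_pow, inv_pow, pow_add]
            field_simp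
    have h5 := dist_le_of_le_geometric_of_tendsto₀ (ρ₂ / τ₁) (|K| * C₂ * ρ₂ ^ n / τ₁) hr hd hz
    have h6 : (B ^ n) (u (n + 0)) = π (v n) := by
      rw [hu]
      have := hBnSn n 0 (v n)
      simpa using this
    rw [h6, dist_eq_norm] at h5
    refine h5.trans (le_of_eq ?_)
    ring
  -- the other part
  have hoth : ∀ ρ₂ : ℝ, ρ < ρ₂ → ∃ K₁ : ℝ, ∀ n, ‖v n - π (v n)‖ ≤ K₁ * ρ₂ ^ n := by
    intro ρ₂ h2
    obtain ⟨τ', h7, h8⟩ := exists_between h2
    have hτ' : 0 < τ' := hρ.trans h7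
    obtain ⟨ρ₃, h9, h10⟩ := exists_between h7
    have hρ3 : 0 < ρ₃ := hρ.trans h9
    obtain ⟨C₂, hC₂, h3⟩ := hCu ρ₃ h9
    obtain ⟨C₃, h11⟩ := hW τ' h7
    have h11' : ∀ (n : ℕ) (x : E), ‖(B ^ n) (x - π x)‖ ≤ |C₃| * τ' ^ n * ‖x‖ := fun n x =>
      (h11 n x).trans (by
        gcongr
        exact le_abs_self C₃)
    have hform : ∀ n, v n - π (v n) = (B ^ n) (v 0 - π (v 0)) +
        ∑ m ∈ Finset.range n, (B ^ (n - 1 - m)) (e m - π (e m)) := by
      intro n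
      induction n with
      | zero => simp
      | succ n ih =>
        have h12 : v (n + 1) - π (v (n + 1)) = B (v n - π (v n)) + (e n - π (e n)) := by
          rw [hv, map_add, map_sub, hBπ]
          abel
        rw [h12, ih, map_add, map_sum, Finset.sum_range_succ, pow_succ', Module.End.mul_apply]
        have h13 : ∀ m ∈ Finset.range n, B ((B ^ (n - 1 - m)) (e m - π (e m))) =
            (B ^ (n + 1 - 1 - m)) (e m - π (e m)) := by
          intro m hm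
          have hm' := Finset.mem_range.1 hm
          rw [← Module.End.mul_apply, ← pow_succ', show n - 1 - m + 1 = n + 1 - 1 - m by omega]
        rw [Finset.sum_congr rfl h13]
        simp only [Nat.add_sub_cancel, Nat.sub_self, pow_zero, Module.End.one_apply]
        abel
    have hr : ρ₃ / τ' < 1 := (div_lt_one hτ').2 h10
    refine ⟨|C₃| * ‖v 0‖ + |C₃| * C₂ / τ' * (1 - ρ₃ / τ')⁻¹, fun n => ?_⟩
    have hb1 : ‖v n - π (v n)‖ ≤ |C₃| * τ' ^ n * ‖v 0‖ +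
        ∑ m ∈ Finset.range n, |C₃| * τ' ^ (n - 1 - m) * (C₂ * ρ₃ ^ m) := by
      rw [hform n]
      refine (norm_add_le _ _).trans (add_le_add (h11' _ _) ?_)
      refine (norm_sum_le _ _).trans (Finset.sum_le_sum fun m _ => ?_)
      refine (h11' _ _).trans ?_
      gcongr
      exact h3 m
    have hb2 : ∑ m ∈ Finset.range n, |C₃| * τ' ^ (n - 1 - m) * (C₂ * ρ₃ ^ m) ≤
        |C₃| * C₂ / τ' * (1 - ρ₃ / τ')⁻¹ * τ' ^ n := by
      have hb3 : ∀ m ∈ Finset.range n, |C₃| * τ' ^ (n - 1 - m) * (C₂ * ρ₃ ^ m) =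
          |C₃| * C₂ / τ' * τ' ^ n * (ρ₃ / τ') ^ m := by
        intro m hm
        have hm' := Finset.mem_range.1 hm
        have : τ' ^ n = τ' ^ (n - 1 - m) * τ' ^ m * τ' := by
          rw [← pow_add, ← pow_succ]
          congr 1
          omega
        rw [this, div_pow]
        field_simp
      rw [Finset.sum_congr rfl hb3, ← Finset.mul_sum]
      have hb4 : ∑ m ∈ Finset.range n, (ρ₃ / τ') ^ m ≤ (1 - ρ₃ / τ')⁻¹ := by
        rw [← tsum_geometric_of_lt_one (by positivity) hr]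
        exact (summable_geometric_of_lt_one (by positivity) hr).sum_le_tsum _
          (fun i _ => by positivity)
      calc |C₃| * C₂ / τ' * τ' ^ n * ∑ m ∈ Finset.range n, (ρ₃ / τ') ^ m
          ≤ |C₃| * C₂ / τ' * τ' ^ n * (1 - ρ₃ / τ')⁻¹ := by gcongr
        _ = |C₃| * C₂ / τ' * (1 - ρ₃ / τ')⁻¹ * τ' ^ n := by ring
    have hpos : 0 ≤ (1 - ρ₃ / τ')⁻¹ := inv_nonneg.2 (by linarith)
    calc ‖v n - π (v n)‖ ≤ |C₃| * τ' ^ n * ‖v 0‖ + |C₃| * C₂ / τ' * (1 - ρ₃ / τ')⁻¹ * τ' ^ n :=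
          hb1.trans (by gcongr)
      _ = (|C₃| * ‖v 0‖ + |C₃| * C₂ / τ' * (1 - ρ₃ / τ')⁻¹) * τ' ^ n := by ring
      _ ≤ (|C₃| * ‖v 0‖ + |C₃| * C₂ / τ' * (1 - ρ₃ / τ')⁻¹) * ρ₂ ^ n := by gcongr
  have hall : ∀ ρ₂ : ℝ, ρ < ρ₂ → ρ₂ < τ₁ → ∃ K₁ : ℝ, 0 < K₁ ∧
      ∀ n, ‖v n - (B ^ n) û‖ ≤ K₁ * ρ₂ ^ n := by
    intro ρ₂ h2 h2'
    obtain ⟨K₁, h3⟩ := hmain ρ₂ h2 h2'
    obtain ⟨K₂, h4⟩ := hoth ρ₂ h2
    have hρ2 : 0 < ρ₂ := hρ.trans h2
    refine ⟨|K₁| + |K₂| + 1, by positivity, fun n => ?_⟩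
    have h5 : v n - (B ^ n) û = (v n - π (v n)) + (π (v n) - (B ^ n) û) := by abel
    rw [h5]
    have h6 : 0 < ρ₂ ^ n := by positivity
    calc ‖v n - π (v n) + (π (v n) - (B ^ n) û)‖ ≤ K₂ * ρ₂ ^ n + K₁ * ρ₂ ^ n :=
          (norm_add_le _ _).trans (add_le_add (h4 n) (h3 n))
      _ ≤ (|K₁| + |K₂| + 1) * ρ₂ ^ n := by
          have := le_abs_self K₁
          have := le_abs_self K₂
          nlinarith
  by_cases hû0 : û = 0
  · refine ⟨ρ, ?_, Or.inl rfl⟩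
    rw [tendsto_order]
    constructor
    · intro a ha
      have h1 : Tendsto (fun n : ℕ => (C⁻¹ * w n) ^ (1 / (n : ℝ))) atTop (𝓝 ρ) :=
        rt_mul (inv_pos.2 hC) (fun n => (hw n).le) hlim
      filter_upwards [(tendsto_order.1 h1).1 a ha] with n hn
      refine hn.trans_le (Real.rpow_le_rpow (by have := hw n; positivity) ?_ (by positivity))
      rw [inv_mul_le_iff₀ hC]
      exact hwv n
    · intro a ha
      obtain ⟨ρ₂, h2, h2'⟩ := exists_between (lt_min hτ ha)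
      have h2a : ρ₂ < τ₁ := h2'.trans_le (min_le_left _ _)
      have h2b : ρ₂ < a := h2'.trans_le (min_le_right _ _)
      have hρ2 : 0 < ρ₂ := hρ.trans h2
      obtain ⟨K₁, hK₁, h3⟩ := hall ρ₂ h2 h2a
      have h4 : Tendsto (fun n : ℕ => (K₁ * ρ₂ ^ n) ^ (1 / (n : ℝ))) atTop (𝓝 ρ₂) := by
        refine rt_mul hK₁ (fun n => by positivity) ?_
        refine tendsto_const_nhds.congr' ?_
        filter_upwards [eventually_ne_atTop 0] with n hn
        exact (pow_rt hρ2.le hn).symm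
      filter_upwards [(tendsto_order.1 h4).2 a h2b] with n hn
      refine lt_of_le_of_lt (Real.rpow_le_rpow (norm_nonneg _) ?_ (by positivity)) hn
      have h5 := h3 n
      rwa [hû0, map_zero, sub_zero] at h5
  · have hSnBn : ∀ n : ℕ, (S ^ n) ((B ^ n) û) = û := by
      intro n
      induction n with
      | zero => simp
      | succ n ih =>
        rw [pow_succ, Module.End.mul_apply, pow_succ' B, Module.End.mul_apply, hSB]
        have h1 : π ((B ^ n) û) = (B ^ n) û := by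
          have h2 : ∀ (m : ℕ) (x : E), π ((B ^ m) x) = (B ^ m) (π x) := by
            intro m
            induction m with
            | zero => intro x; simp
            | succ m ihm =>
              intro x
              rw [pow_succ', Module.End.mul_apply, Module.End.mul_apply, ← hBπ, ihm]
          rw [h2, hπû]
        rw [h1, ih]
    have hlow : ∀ n : ℕ, ‖û‖ ≤ |K| * (τ₁⁻¹) ^ n * ‖(B ^ n) û‖ := by
      intro n
      have h1 := hK0 n ((B ^ n) û)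
      rwa [hSnBn] at h1
    have hne : ∀ n : ℕ, (B ^ n) û ≠ 0 := by
      intro n h
      have h1 := hSnBn n
      rw [h, map_zero] at h1
      exact hû0 h1.symm
    obtain ⟨μ, hμ, hμ'⟩ := hCYC E B û hne
    refine ⟨‖μ‖, ?_, Or.inr ⟨μ, hμ, rfl⟩⟩
    obtain ⟨ρ₂, h2, h2'⟩ := exists_between hτ
    obtain ⟨K₁, hK₁, h3⟩ := hall ρ₂ h2 h2'
    have hρ2 : 0 < ρ₂ := hρ.trans h2
    have hûn : 0 < ‖û‖ := norm_pos_iff.2 hû0
    have hKp : 0 < |K| := by
      have h4 := hlow 0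
      simp only [pow_zero, mul_one, Module.End.one_apply] at h4
      by_contra h5
      have h6 : |K| = 0 := le_antisymm (not_lt.1 h5) (abs_nonneg _)
      rw [h6, zero_mul] at h4
      linarith
    -- the perturbation is small
    have hsmall : ∀ᶠ n : ℕ in atTop, ‖v n - (B ^ n) û‖ ≤ 1 / 2 * ‖(B ^ n) û‖ := by
      have hr : ρ₂ / τ₁ < 1 := (div_lt_one hτ₁).2 h2'
      have h7 := tendsto_pow_atTop_nhds_zero_of_lt_one (by positivity : 0 ≤ ρ₂ / τ₁) hr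
      have h8 : 0 < ‖û‖ / (2 * |K| * K₁) := by positivity
      filter_upwards [(tendsto_order.1 h7).2 _ h8] with n hn
      refine (h3 n).trans ?_
      have h9 := hlow n
      have h10 : 0 < τ₁ ^ n := by positivity
      have h11 : ‖û‖ * τ₁ ^ n ≤ |K| * ‖(B ^ n) û‖ := by
        rw [inv_pow] at h9
        calc ‖û‖ * τ₁ ^ n ≤ (|K| * (τ₁ ^ n)⁻¹ * ‖(B ^ n) û‖) * τ₁ ^ n := by gcongr
          _ = |K| * ‖(B ^ n) û‖ := by field_simp
      rw [div_pow, div_lt_div_iff₀ h10 (by positivity)] at hn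
      have h12 : K₁ * ρ₂ ^ n * (2 * |K|) ≤ 1 / 2 * ‖(B ^ n) û‖ * (2 * |K|) := by
        calc K₁ * ρ₂ ^ n * (2 * |K|) = ρ₂ ^ n * (2 * |K| * K₁) := by ring
          _ ≤ ‖û‖ * τ₁ ^ n := hn.le
          _ ≤ |K| * ‖(B ^ n) û‖ := h11
          _ = 1 / 2 * ‖(B ^ n) û‖ * (2 * |K|) := by ring
      exact le_of_mul_le_mul_right h12 (by positivity)
    refine rt_comp (c₁ := 1 / 2) (c₂ := 3 / 2) (by norm_num) (by norm_num)
      (fun n => norm_nonneg _) ?_ ?_ hμ'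
    · filter_upwards [hsmall] with n hn
      have h4 : ‖(B ^ n) û‖ ≤ ‖v n‖ + ‖v n - (B ^ n) û‖ := by
        have := norm_sub_le (v n) (v n - (B ^ n) û)
        simpa using this
      linarith
    · filter_upwards [hsmall] with n hn
      have h4 : ‖v n‖ ≤ ‖(B ^ n) û‖ + ‖v n - (B ^ n) û‖ := by
        have := norm_add_le ((B ^ n) û) (v n - (B ^ n) û)
        simpa using this
      linarith

end Pool.Agent.K6.H12.HA
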