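import Pool.Agent.K6.H12.HA.Stm2

/-! Piece RAT of call12 (helper52). -/

set_option autoImplicit false

namespace Pool.Agent.K6.H12.HA

namespace RAT

lemma hasEig_iff {ι : Type} [Fintype ι] [DecidableEq ι] (M : Matrix ι ι ℂ) (μ : ℂ) :
    Module.End.HasEigenvalue (Matrix.toLin' M) μ ↔
      ∃ x : ι → ℂ, x ≠ 0 ∧ ∀ i, ∑ j, M i j * x j = μ * x i := by
  constructor
  · intro h
    obtain ⟨x, hx⟩ := h.exists_hasEigenvector
    refine ⟨x, hx.2, fun i => ?_⟩
    have h1 := congrFun hx.apply_eq_smul i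
    rw [Matrix.toLin'_apply] at h1
    simpa [Matrix.mulVec, dotProduct] using h1
  · rintro ⟨x, hx0, hx⟩
    refine Module.End.hasEigenvalue_of_hasEigenvector (x := x) ⟨?_, hx0⟩
    rw [Module.End.mem_eigenspace_iff, Matrix.toLin'_apply]
    funext i
    simpa [Matrix.mulVec, dotProduct] using hx i

variable {ι κ : Type} [Fintype ι] [Fintype κ]

/-- the action of a matrix in the first variable -/
noncomputable def A1 (a : Matrix ι ι ℂ) : (ι → κ → ℂ) →ₗ[ℂ] (ι → κ → ℂ) where
  toFun F := fun i J => ∑ i', a i i' * F i' J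
  map_add' F G := by
    funext i J
    simp [mul_add, Finset.sum_add_distrib]
  map_smul' c F := by
    funext i J
    simp only [Pi.smul_apply, smul_eq_mul, RingHom.id_apply, Finset.mul_sum]
    exact Finset.sum_congr rfl fun i' _ => by ring

/-- the action of a matrix in the second variable -/
noncomputable def T1 (t : Matrix κ κ ℂ) : (ι → κ → ℂ) →ₗ[ℂ] (ι → κ → ℂ) where
  toFun F := fun i J => ∑ J', t J J' * F i J'
  map_add' F G := by
    funext i J
    simp [mul_add, Finset.sum_add_distrib]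
  map_smul' c F := by
    funext i J
    simp only [Pi.smul_apply, smul_eq_mul, RingHom.id_apply, Finset.mul_sum]
    exact Finset.sum_congr rfl fun i' _ => by ring

lemma comm (a : Matrix ι ι ℂ) (t : Matrix κ κ ℂ) (F : ι → κ → ℂ) :
    A1 a (T1 t F) = T1 t (A1 a F) := by
  funext i J
  show ∑ i', a i i' * ∑ J', t J J' * F i' J' = ∑ J', t J J' * ∑ i', a i i' * F i' J'
  simp only [Finset.mul_sum]
  rw [Finset.sum_comm]
  exact Finset.sum_congr rfl fun J' _ => Finset.sum_congr rfl fun i' _ => by ring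

lemma key (a : Matrix ι ι ℂ) (t : Matrix κ κ ℂ) (μ : ℂ) (F : ι → κ → ℂ) (hF : F ≠ 0)
    (h : A1 a (T1 t F) = μ • F) :
    ∃ (G : ι → κ → ℂ) (ν : ℂ), G ≠ 0 ∧ A1 a G = ν • G ∧ A1 a (T1 t G) = μ • G := by
  set W : Submodule ℂ (ι → κ → ℂ) :=
    Module.End.eigenspace ((A1 a).comp (T1 t) : Module.End ℂ (ι → κ → ℂ)) μ with hW
  have hmem : ∀ G, G ∈ W ↔ A1 a (T1 t G) = μ • G := by
    intro G
    rw [hW, Module.End.mem_eigenspace_iff]
    rfl
  have hmaps : ∀ G ∈ W, A1 a G ∈ W := by
    intro G hG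
    rw [hmem] at hG ⊢
    rw [← comm, hG, map_smul]
  have hnt : Nontrivial W := ⟨⟨⟨F, (hmem F).2 h⟩, 0, fun h0 => hF (congrArg Subtype.val h0)⟩⟩
  obtain ⟨ν, hν⟩ := Module.End.exists_eigenvalue
    (((A1 a).restrict hmaps : W →ₗ[ℂ] W) : Module.End ℂ W)
  obtain ⟨G, hG⟩ := hν.exists_hasEigenvector
  refine ⟨G.1, ν, fun h0 => hG.2 (Subtype.ext h0), ?_, (hmem G.1).1 G.2⟩
  exact congrArg Subtype.val hG.apply_eq_smul

end RAT

open RAT in
theorem t_RAT : S_RAT := by
  intro r m a
  induction m with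
  | zero =>
    intro μ h
    obtain ⟨x, hx0, hx⟩ := (hasEig_iff _ _).1 h
    refine ⟨fun s => s.elim0, fun s => s.elim0, ?_⟩
    obtain ⟨I, hI⟩ : ∃ I, x I ≠ 0 := by
      by_contra hcon
      push Not at hcon
      exact hx0 (funext hcon)
    have h1 := hx I
    rw [Fintype.sum_unique] at h1
    have hd : (default : Fin 0 → Fin r) = I := Subsingleton.elim _ _
    have h2 : tp 0 a I default = 1 := by
      unfold tp
      simp
    rw [h2, hd, one_mul] at h1
    rw [Fin.prod_univ_zero]
    have h3 : (μ - 1) * x I = 0 := by linear_combination -h1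
    exact sub_eq_zero.1 ((mul_eq_zero.1 h3).resolve_right hI)
  | succ m ih =>
    intro μ h
    obtain ⟨x, hx0, hx⟩ := (hasEig_iff _ _).1 h
    set F : Fin r → (Fin m → Fin r) → ℂ := fun i J => x (Fin.cons i J : Fin (m + 1) → Fin r) with hF
    have hF0 : F ≠ 0 := by
      intro h0
      apply hx0
      funext I
      have h1 := congrFun (congrFun h0 (I 0)) (Fin.tail I)
      rw [hF] at h1
      simp only [Fin.cons_self_tail] at h1
      exact h1
    have hAT : A1 a (T1 (tp m a) F) = μ • F := by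
      funext i J
      show ∑ i', a i i' * ∑ J', tp m a J J' * F i' J' = μ * F i J
      have h1 := hx (Fin.cons i J : Fin (m + 1) → Fin r)
      rw [← (Fin.consEquiv fun _ : Fin (m + 1) => Fin r).sum_comp, Fintype.sum_prod_type] at h1
      rw [← show μ * x (Fin.cons i J : Fin (m + 1) → Fin r) = μ * F i J from rfl, ← h1]
      refine Finset.sum_congr rfl fun i' _ => ?_
      rw [Finset.mul_sum]
      refine Finset.sum_congr rfl fun J' _ => ?_
      have h2 : tp (m + 1) a (Fin.cons i J : Fin (m + 1) → Fin r)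
          ((Fin.consEquiv fun _ : Fin (m + 1) => Fin r) (i', J')) = a i i' * tp m a J J' := by
        unfold tp
        rw [Fin.prod_univ_succ]
        rfl
      rw [h2, mul_assoc]
      rfl
    obtain ⟨G, ν, hG0, hGA, hGT⟩ := key a (tp m a) μ F hF0 hAT
    obtain ⟨i, J, hiJ⟩ : ∃ i J, G i J ≠ 0 := by
      by_contra hcon
      push Not at hcon
      exact hG0 (funext fun i => funext fun J => hcon i J)
    have hν : Module.End.HasEigenvalue (Matrix.toLin' a) ν := by
      rw [hasEig_iff]
      refine ⟨fun i' => G i' J, fun h0 => hiJ (congrFun h0 i), fun i' => ?_⟩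
      exact congrFun (congrFun hGA i') J
    by_cases hν0 : ν = 0
    · refine ⟨fun _ => ν, fun _ => hν, ?_⟩
      have h1 : μ • G = 0 := by
        rw [← hGT, RAT.comm, hGA, hν0, zero_smul, map_zero]
      have h2 : μ * G i J = 0 := congrFun (congrFun h1 i) J
      have h3 : μ = 0 := (mul_eq_zero.1 h2).resolve_right hiJ
      rw [h3, hν0]
      simp
    · have hT : T1 (tp m a) G = (μ / ν) • G := by
        have h1 : ν • T1 (tp m a) G = μ • G := by
          rw [← hGT, RAT.comm, hGA, map_smul]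
        have h2 : T1 (tp m a) G = ν⁻¹ • (ν • T1 (tp m a) G) := by
          rw [smul_smul, inv_mul_cancel₀ hν0, one_smul]
        rw [h2, h1, smul_smul, div_eq_mul_inv, mul_comm]
      obtain ⟨ν', hν', hp⟩ := ih (μ / ν) ((hasEig_iff _ _).2
        ⟨G i, fun h0 => hiJ (congrFun h0 J), fun J' => congrFun (congrFun hT i) J'⟩)
      refine ⟨Fin.cons ν ν', fun s => ?_, ?_⟩
      · refine Fin.cases ?_ (fun s => ?_) s
        · exact hν
        · exact hν' s
      · rw [Fin.prod_univ_succ]
        simp only [Fin.cons_zero, Fin.cons_succ]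
        rw [← hp, mul_div_cancel₀ _ hν0]

end Pool.Agent.K6.H12.HA
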