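import Pool.Agent.K6.H12.HA.Stm

/-!
# Piece SPL: spectral splitting (helper21, for helper12)

All the maps are polynomials in `B`.
-/

set_option autoImplicit false

open Filter Topology Polynomial

namespace Pool.Agent.K6.H12.HA

namespace SPL

/-- bound for the powers -/
lemma pow_bound {A : Type} [NormedRing A] [NormedAlgebra ℂ A] [CompleteSpace A] [Nontrivial A]
    (a : A) (ρ : ℝ) (hρ : 0 < ρ) (h : ∀ z ∈ spectrum ℂ a, ‖z‖ < ρ) :
    ∃ C : ℝ, 0 ≤ C ∧ ∀ n : ℕ, ‖a ^ n‖ ≤ C * ρ ^ n := by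
  have h1 : spectralRadius ℂ a < ENNReal.ofReal ρ := by
    have h2 := spectrum.spectralRadius_lt_of_forall_lt a (r := ρ.toNNReal) (fun z hz => by
      rw [← NNReal.coe_lt_coe, Real.coe_toNNReal _ hρ.le]
      exact h z hz)
    exact h2
  have h2 := spectrum.pow_norm_pow_one_div_tendsto_nhds_spectralRadius a
  obtain ⟨N, hN⟩ := eventually_atTop.1 (h2.eventually (eventually_lt_nhds h1))
  have h3 : ∀ n : ℕ, N < n → ‖a ^ n‖ ≤ ρ ^ n := by
    intro n hn
    have h4 := (ENNReal.ofReal_lt_ofReal_iff hρ).1 (hN n hn.le)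
    rw [one_div] at h4
    have h5 := Real.rpow_inv_natCast_pow (norm_nonneg (a ^ n)) (by omega : n ≠ 0)
    rw [← h5]
    exact pow_le_pow_left₀ (Real.rpow_nonneg (norm_nonneg _) _) h4.le n
  have hS : 0 ≤ ∑ i ∈ Finset.range (N + 1), ‖a ^ i‖ / ρ ^ i :=
    Finset.sum_nonneg fun i _ => div_nonneg (norm_nonneg _) (pow_nonneg hρ.le _)
  refine ⟨1 + ∑ i ∈ Finset.range (N + 1), ‖a ^ i‖ / ρ ^ i, by linarith, fun n => ?_⟩
  have hρn : 0 < ρ ^ n := pow_pos hρ n
  rcases Nat.lt_or_ge N n with hn | hn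
  · refine (h3 n hn).trans ?_
    nlinarith
  · have h4 : ‖a ^ n‖ / ρ ^ n ≤ ∑ i ∈ Finset.range (N + 1), ‖a ^ i‖ / ρ ^ i :=
      Finset.single_le_sum (f := fun i => ‖a ^ i‖ / ρ ^ i)
        (fun i _ => div_nonneg (norm_nonneg _) (pow_nonneg hρ.le _))
        (Finset.mem_range.2 (by omega))
    rw [div_le_iff₀ hρn] at h4
    nlinarith

/-- the factors of an annihilating polynomial -/
lemma factors (p : ℂ[X]) (hp : p.Monic) (τ : ℝ) (hτ : 0 < τ) :
    ∃ (P Q : ℂ[X]) (τ₁ : ℝ), P * Q = p ∧ τ < τ₁ ∧ (∀ z, P.eval z = 0 → τ₁ < ‖z‖) ∧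
      (∀ z, Q.eval z = 0 → ‖z‖ ≤ τ) ∧ IsCoprime P Q ∧ IsCoprime X P := by
  classical
  set s := p.roots with hs
  have hsp : (s.map fun a => X - C a).prod = p :=
    ((IsAlgClosed.splits p).eq_prod_roots_of_monic hp).symm
  set P : ℂ[X] := ((s.filter fun z => τ < ‖z‖).map fun a => X - C a).prod with hP
  set Q : ℂ[X] := ((s.filter fun z => ¬ τ < ‖z‖).map fun a => X - C a).prod with hQ
  have hroot : ∀ (m : Multiset ℂ) (z : ℂ), ((m.map fun a => X - C a).prod).eval z = 0 → z ∈ m := by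
    intro m z hz
    have h0 : (m.map fun a => X - C a).prod ≠ 0 :=
      (monic_multiset_prod_of_monic _ _ fun a _ => monic_X_sub_C a).ne_zero
    have h1 := (mem_roots h0).2 hz
    rwa [roots_multiset_prod_X_sub_C] at h1
  have hPr : ∀ z, P.eval z = 0 → τ < ‖z‖ := fun z hz => (Multiset.mem_filter.1 (hroot _ z hz)).2
  have hQr : ∀ z, Q.eval z = 0 → ‖z‖ ≤ τ := fun z hz =>
    not_lt.1 (Multiset.mem_filter.1 (hroot _ z hz)).2
  have hev : ∀ᶠ x in 𝓝[>] τ, ∀ z ∈ (s.filter fun z => τ < ‖z‖).toFinset, x < ‖z‖ := by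
    rw [Filter.eventually_all_finset]
    intro z hz
    have hz2 : τ < ‖z‖ := (Multiset.mem_filter.1 (Multiset.mem_toFinset.1 hz)).2
    exact eventually_nhdsWithin_of_eventually_nhds (eventually_lt_nhds hz2)
  obtain ⟨τ₁, h1, h2⟩ := (hev.and self_mem_nhdsWithin).exists
  refine ⟨P, Q, τ₁, ?_, h2, ?_, hQr, ?_, ?_⟩
  · rw [hP, hQ, ← Multiset.prod_add, ← Multiset.map_add, Multiset.filter_add_not, hsp]
  · intro z hz
    exact h1 z (Multiset.mem_toFinset.2 (hroot _ z hz))
  · rw [Polynomial.isCoprime_iff_aeval_ne_zero_of_isAlgClosed ℂ ℂ]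
    intro z
    rw [coe_aeval_eq_eval]
    by_contra h
    push Not at h
    exact absurd (hPr z h.1) (not_lt.2 (hQr z h.2))
  · rw [Polynomial.isCoprime_iff_aeval_ne_zero_of_isAlgClosed ℂ ℂ]
    intro z
    rw [coe_aeval_eq_eval]
    by_contra h
    push Not at h
    have h3 := hPr z h.2
    have h4 : z = 0 := by simpa using h.1
    rw [h4, norm_zero] at h3
    linarith

/-- the splitting in a Banach algebra -/
lemma banach {A : Type} [NormedRing A] [NormedAlgebra ℂ A] [CompleteSpace A] [Nontrivial A]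
    (b : A) (p : ℂ[X]) (hp : p.Monic) (hb : aeval b p = 0) (τ : ℝ) (hτ : 0 < τ) :
    ∃ (π S : A) (τ₁ : ℝ), τ < τ₁ ∧ π * π = π ∧ b * π = π * b ∧ S * b = π ∧ b * S = π ∧
      π * S = S ∧ S * π = S ∧ (∃ C : ℝ, 0 ≤ C ∧ ∀ n : ℕ, ‖S ^ n‖ ≤ C * (τ₁⁻¹) ^ n) ∧
      ∀ τ' : ℝ, τ < τ' → ∃ C : ℝ, 0 ≤ C ∧ ∀ n : ℕ, ‖b ^ n * (1 - π)‖ ≤ C * τ' ^ n := by
  obtain ⟨P, Q, τ₁, hPQ, h1, hP, hQ, ⟨u, v, huv⟩, ⟨c, d, hcd⟩⟩ := factors p hp τ hτ
  have hτ₁ : 0 < τ₁ := hτ.trans h1
  have hspec : ∀ z ∈ spectrum ℂ b, P.eval z = 0 ∨ Q.eval z = 0 := by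
    intro z hz
    have h2 := spectrum.subset_polynomial_aeval b p ⟨z, hz, rfl⟩
    simp only at h2
    rw [hb, spectrum.zero_eq, Set.mem_singleton_iff, ← hPQ, eval_mul] at h2
    exact mul_eq_zero.1 h2
  have hPQb : ∀ r : ℂ[X], aeval b (P * Q * r) = 0 := by
    intro r
    rw [map_mul, hPQ, hb, zero_mul]
  let f : ℂ[X] → A := fun r => aeval b r
  have hfmul : ∀ r s, f r * f s = f (r * s) := fun r s => (map_mul _ r s).symm
  have hfX : f X = b := aeval_X b
  have heq : ∀ r s t : ℂ[X], r - s = P * Q * t → f r = f s := by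
    intro r s t h
    have h2 : aeval b (r - s) = 0 := by rw [h, hPQb]
    rwa [map_sub, sub_eq_zero] at h2
  refine ⟨f (v * Q), f (v * Q * c), τ₁, h1, ?_, ?_, ?_, ?_, ?_, ?_, ?_, ?_⟩
  · rw [hfmul]
    apply heq _ _ (-(u * v))
    linear_combination (v * Q) * huv
  · rw [← hfX, hfmul, hfmul, mul_comm]
  · rw [← hfX, hfmul]
    apply heq _ _ (-(v * d))
    linear_combination (v * Q) * hcd
  · rw [← hfX, hfmul]
    apply heq _ _ (-(v * d))
    linear_combination (v * Q) * hcd
  · rw [hfmul]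
    apply heq _ _ (-(u * v * c))
    linear_combination (v * Q * c) * huv
  · rw [hfmul]
    apply heq _ _ (-(u * v * c))
    linear_combination (v * Q * c) * huv
  · apply pow_bound _ _ (inv_pos.2 hτ₁)
    intro z hz
    have h2 : z ∈ spectrum ℂ (aeval b (v * Q * c)) := hz
    rw [spectrum.map_polynomial_aeval_of_nonempty b _ (spectrum.nonempty b)] at h2
    obtain ⟨w, hw, rfl⟩ := h2
    simp only
    rcases hspec w hw with h3 | h3
    · have e1 : (v * Q).eval w = 1 := by
        have := congrArg (eval w) huv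
        rw [eval_add, eval_mul, eval_mul, h3, mul_zero, zero_add, eval_one] at this
        rw [eval_mul]
        exact this
      have e2 : c.eval w * w = 1 := by
        have := congrArg (eval w) hcd
        rwa [eval_add, eval_mul, eval_mul, h3, mul_zero, add_zero, eval_X, eval_one] at this
      rw [eval_mul, e1, one_mul]
      have e3 : ‖c.eval w‖ * ‖w‖ = 1 := by rw [← norm_mul, e2, norm_one]
      have e4 := hP w h3
      have e5 : ‖c.eval w‖ = ‖w‖⁻¹ := eq_inv_of_mul_eq_one_left e3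
      rw [e5]
      exact inv_strictAnti₀ hτ₁ e4
    · rw [eval_mul, eval_mul, h3, mul_zero, zero_mul, norm_zero]
      exact inv_pos.2 hτ₁
  · intro τ' hτ'
    have hτ'0 : 0 < τ' := hτ.trans hτ'
    have h2 : ∀ z ∈ spectrum ℂ (f (X * (u * P))), ‖z‖ < τ' := by
      intro z hz
      have h3 : z ∈ spectrum ℂ (aeval b (X * (u * P))) := hz
      rw [spectrum.map_polynomial_aeval_of_nonempty b _ (spectrum.nonempty b)] at h3
      obtain ⟨w, hw, rfl⟩ := h3
      simp only
      rcases hspec w hw with h4 | h4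
      · rw [eval_mul, eval_mul, h4, mul_zero, mul_zero, norm_zero]
        exact hτ'0
      · have e1 : (u * P).eval w = 1 := by
          have := congrArg (eval w) huv
          rw [eval_add, eval_mul, eval_mul, h4, mul_zero, add_zero, eval_one] at this
          rw [eval_mul]
          exact this
        rw [eval_mul, e1, mul_one, eval_X]
        exact (hQ w h4).trans_lt hτ'
    obtain ⟨C, hC, h3⟩ := pow_bound _ τ' hτ'0 h2
    have h4 : (1 : A) - f (v * Q) = f (u * P) := by
      have : f (u * P) + f (v * Q) = 1 := by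
        change aeval b (u * P) + aeval b (v * Q) = 1
        rw [← map_add, huv, map_one]
      rw [← this, add_sub_cancel_right]
    have h5 : ∀ n : ℕ, 1 ≤ n → b ^ n * (1 - f (v * Q)) = f (X * (u * P)) ^ n := by
      intro n hn
      rw [h4]
      have h6 : ∀ m : ℕ, f (u * P) ^ (m + 1) = f (u * P) := by
        intro m
        induction m with
        | zero => rw [zero_add, pow_one]
        | succ m ih =>
          rw [pow_succ, ih, hfmul]
          apply heq _ _ (-(u * v))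
          linear_combination (u * P) * huv
      obtain ⟨m, rfl⟩ := Nat.exists_eq_add_of_le' hn
      have h7 : f (X * (u * P)) = b * f (u * P) := by rw [← hfmul, hfX]
      have hcom : Commute b (f (u * P)) := by
        change b * f (u * P) = f (u * P) * b
        rw [← hfX, hfmul, hfmul, mul_comm]
      rw [h7, hcom.mul_pow, h6]
    refine ⟨C + ‖(1 : A) - f (v * Q)‖, add_nonneg hC (norm_nonneg _), fun n => ?_⟩
    rcases Nat.eq_zero_or_pos n with rfl | hn
    · rw [pow_zero, pow_zero, one_mul, mul_one]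
      linarith
    · rw [h5 n hn]
      refine (h3 n).trans ?_
      have := pow_nonneg hτ'0.le n
      have := norm_nonneg ((1 : A) - f (v * Q))
      nlinarith

end SPL

/-- **SPL** -/
theorem t_SPL : S_SPL := by
  intro E _ _ _ B τ hτ
  rcases subsingleton_or_nontrivial E with hE | hE
  · refine ⟨0, 0, τ + 1, by linarith, fun v => Subsingleton.elim _ _, fun v => Subsingleton.elim _ _,
      fun v => Subsingleton.elim _ _, fun v => Subsingleton.elim _ _,
      fun v => Subsingleton.elim _ _, fun v => Subsingleton.elim _ _, ⟨0, fun n v => ?_⟩,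
      fun τ' _ => ⟨0, fun n v => ?_⟩⟩
    · rw [Subsingleton.elim v 0, map_zero, norm_zero, mul_zero]
    · rw [Subsingleton.elim v 0, map_zero, sub_zero, map_zero, norm_zero, mul_zero]
  · have : CompleteSpace E := FiniteDimensional.complete ℂ E
    let Φ := Module.End.toContinuousLinearMap (𝕜 := ℂ) E
    have hb : aeval (Φ B) (LinearMap.charpoly B) = 0 := by
      have h := aeval_algHom_apply (Φ : (E →ₗ[ℂ] E) →ₐ[ℂ] (E →L[ℂ] E)) B (LinearMap.charpoly B)
      rw [LinearMap.aeval_self_charpoly, map_zero] at h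
      exact h
    obtain ⟨π, S, τ₁, h1, h2, h3, h4, h5, h6, h7, ⟨C, hC, h8⟩, h9⟩ :=
      SPL.banach (Φ B) _ (LinearMap.charpoly_monic B) hb τ hτ
    have hB : ∀ v, B v = Φ B v := fun v => rfl
    have hap : ∀ (F G : E →L[ℂ] E) (v : E), (F * G) v = F (G v) := fun F G v => rfl
    have hpow : ∀ (n : ℕ) (F : E →L[ℂ] E) (v : E), ((F : E →ₗ[ℂ] E) ^ n) v = (F ^ n) v := by
      intro n F v
      induction n generalizing v with
      | zero => rfl
      | succ n ih => rw [pow_succ, pow_succ, Module.End.mul_apply, hap, ih]; rfl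
    have hBpow : ∀ (n : ℕ) (v : E), (B ^ n) v = ((Φ B) ^ n) v := fun n v => hpow n (Φ B) v
    refine ⟨π, S, τ₁, h1, ?_, ?_, ?_, ?_, ?_, ?_, ⟨C, fun n v => ?_⟩, fun τ' hτ' => ?_⟩
    · intro v
      exact congrArg (fun F : E →L[ℂ] E => F v) h2
    · intro v
      exact congrArg (fun F : E →L[ℂ] E => F v) h3
    · intro v
      exact congrArg (fun F : E →L[ℂ] E => F v) h4
    · intro v
      exact congrArg (fun F : E →L[ℂ] E => F v) h5
    · intro v
      exact congrArg (fun F : E →L[ℂ] E => F v) h6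
    · intro v
      exact congrArg (fun F : E →L[ℂ] E => F v) h7
    · rw [hpow]
      refine ((S ^ n).le_opNorm v).trans ?_
      exact mul_le_mul_of_nonneg_right (h8 n) (norm_nonneg v)
    · obtain ⟨C', hC', h10⟩ := h9 τ' hτ'
      refine ⟨C', fun n v => ?_⟩
      rw [hBpow]
      have e : ((Φ B) ^ n) (v - π v) = ((Φ B) ^ n * (1 - π)) v := rfl
      have e2 : ((π : E →ₗ[ℂ] E) v) = π v := rfl
      rw [e2, e]
      refine (((Φ B) ^ n * (1 - π)).le_opNorm v).trans ?_
      exact mul_le_mul_of_nonneg_right (h10 n) (norm_nonneg v)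

end Pool.Agent.K6.H12.HA
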