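import Mathlib

/-!
Statements of the pieces: growth of perturbed linear orbits in finite-dimensional spaces
(for the existence of the higher arithmetic degrees of subvarieties under endomorphisms).
-/

set_option autoImplicit false

open Filter Topology

namespace Pool.Agent.K6.H12.HA

/-- CYC: the growth rate of an orbit of a linear map exists and is the absolute value of an
eigenvalue. Proof: on the span `Z` of the `B ^ i v`, `i < dim E`, which is invariant under `B`, the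
norms `‖B ^ n v‖` and `‖(B|Z) ^ n‖` are comparable; Gelfand's formula for `B|Z`; the spectral radius
is attained at an eigenvalue of `B|Z`, which is an eigenvalue of `B`. -/
def S_CYC : Prop :=
  ∀ (E : Type) [NormedAddCommGroup E] [NormedSpace ℂ E] [FiniteDimensional ℂ E]
    (B : E →ₗ[ℂ] E) (v : E), (∀ n : ℕ, (B ^ n) v ≠ 0) →
    ∃ μ : ℂ, Module.End.HasEigenvalue B μ ∧
      Tendsto (fun n : ℕ => ‖(B ^ n) v‖ ^ (1 / (n : ℝ))) atTop (𝓝 ‖μ‖)

/-- SPL: splitting of the space in the part with the eigenvalues of absolute value `> τ` (with the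
projection `π`, on which `B` has the inverse `S`) and the part with those `≤ τ`. -/
def S_SPL : Prop :=
  ∀ (E : Type) [NormedAddCommGroup E] [NormedSpace ℂ E] [FiniteDimensional ℂ E]
    (B : E →ₗ[ℂ] E) (τ : ℝ), 0 < τ →
    ∃ (π S : E →ₗ[ℂ] E) (τ₁ : ℝ), τ < τ₁ ∧ (∀ v, π (π v) = π v) ∧ (∀ v, B (π v) = π (B v)) ∧
      (∀ v, S (B v) = π v) ∧ (∀ v, B (S v) = π v) ∧ (∀ v, π (S v) = S v) ∧
      (∀ v, S (π v) = S v) ∧
      (∃ C : ℝ, ∀ (n : ℕ) (v : E), ‖(S ^ n) v‖ ≤ C * (τ₁⁻¹) ^ n * ‖v‖) ∧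
      (∀ τ' : ℝ, τ < τ' → ∃ C : ℝ, ∀ (n : ℕ) (v : E), ‖(B ^ n) (v - π v)‖ ≤ C * τ' ^ n * ‖v‖)

/-- PER: growth of a perturbed orbit `v (n + 1) = B (v n) + e n` with `‖e n‖ ≤ C w n ≤ C² ‖v n‖`. -/
def S_PER : Prop :=
  ∀ (E : Type) [NormedAddCommGroup E] [NormedSpace ℂ E] [FiniteDimensional ℂ E]
    (B : E →ₗ[ℂ] E) (v : ℕ → E) (w : ℕ → ℝ) (C ρ : ℝ), 0 < ρ → (∀ n, 0 < w n) →
    (∀ n, ‖v (n + 1) - B (v n)‖ ≤ C * w n) → (∀ n, w n ≤ C * ‖v n‖) →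
    Tendsto (fun n : ℕ => w n ^ (1 / (n : ℝ))) atTop (𝓝 ρ) →
    ∃ α : ℝ, Tendsto (fun n : ℕ => ‖v n‖ ^ (1 / (n : ℝ))) atTop (𝓝 α) ∧
      (α = ρ ∨ ∃ μ : ℂ, Module.End.HasEigenvalue B μ ∧ α = ‖μ‖)

end Pool.Agent.K6.H12.HA
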